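import Mathlib
import Pool.Agent.H66.IntV

set_option autoImplicit false

open Polynomial TensorProduct

namespace Pool.Agent.Results.MP_efce82_al.DenseNotEqual

variable (D K A : Type) [CommRing D] [Field K] [Ring A] [Algebra D K] [Algebra D A]

/-- the standing assumptions on `D`, `K`, `A`. -/
def Setting : Prop :=
  IsDomain D ∧ IsIntegrallyClosed D ∧ IsFractionRing D K ∧ Function.Injective (algebraMap D A) ∧
    Module.Finite D A ∧ ∀ (d : D) (a : A), d • a = 0 → d = 0 ∨ a = 0

/-- the copy of `A` inside `B = K ⊗ A`. -/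
def copyA : Set (K ⊗[D] A) := Set.range fun a : A => (1 : K) ⊗ₜ[D] a

/-- `A'`, the elements of `B` integral over `D`. -/
def intEl : Set (K ⊗[D] A) := {b | IsIntegral D b}

/-- the polynomials over `K` mapping `S` into `A'`. -/
def intPoly (S : Set (K ⊗[D] A)) : Set K[X] := {f | ∀ b ∈ S, aeval b f ∈ intEl D K A}

/-- `Ω_S`, the roots of the minimal polynomials of the elements of `S`. -/
def omega (S : Set (K ⊗[D] A)) : Set (AlgebraicClosure K) :=
  {α | ∃ b ∈ S, aeval α (minpoly K b) = 0}

/-- `A` can be polynomially dense in `A'` although `Ω_A ≠ Ω_{A'}`. -/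
theorem result :
    ∃ (D K A : Type) (_ : CommRing D) (_ : Field K) (_ : Ring A) (_ : Algebra D K)
      (_ : Algebra D A), Setting D K A ∧
      intPoly D K A (copyA D K A) = intPoly D K A (intEl D K A) ∧
      ∃ α ∈ omega D K A (intEl D K A), α ∉ omega D K A (copyA D K A) := by
  obtain ⟨α, h1, h2⟩ := Pool.Agent.H66.IntV.exists_root
  refine ⟨Pool.Agent.H66.IntV.D, Pool.Agent.H66.IntV.K, Pool.Agent.H66.IntV.A,
    inferInstance, inferInstance, inferInstance, inferInstance, inferInstance,
    ⟨inferInstance, inferInstance, inferInstance, FaithfulSMul.algebraMap_injective _ _,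
    inferInstance, Pool.Agent.H66.IntV.torsionFree⟩, ?_, α, ⟨_, Pool.Agent.H66.IntV.b_int, h1⟩, ?_⟩
  · ext f
    refine ⟨fun h => Pool.Agent.H66.IntV.integral_of f
      (Pool.Agent.H66.IntV.lifts_of f fun a => h _ ⟨a, rfl⟩), ?_⟩
    rintro h _ ⟨a, rfl⟩
    exact h _ (Pool.Agent.H66.IntV.integral_one a)
  · rintro ⟨_, ⟨a, rfl⟩, h⟩
    exact h2 a h

end Pool.Agent.Results.MP_efce82_al.DenseNotEqual
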